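import Pool.Agent.Helper74.FN.Defs

/-!
# FN-N6: numerics of the residue classes
-/

set_option autoImplicit false

namespace Pool.Agent.Helper95.FN

open Finset
open Pool.Agent.Helper74.FN

/-- The threshold for the residue classes modulo `q i ^ 2`. -/
def yN (u b : ℕ → ℕ) (k i : ℕ) : ℕ :=
  2 ^ (4 * u i + b i) / 2 ^ (i - k) / 2 ^ 12 + 2 ^ (2 * u i - 12)

theorem res_num {a u b w r c : ℕ → ℕ} (h : NTow a u b w r c) (k : ℕ) (q : ℕ → ℕ)
    (hq : ∀ i, (q i).Prime ∧ 2 ^ (a i) < q i ∧ q i ≤ 2 ^ (a i + 1)) (T : Finset ℕ)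
    (hT : T.card ≤ 2 ^ (b k + 2 * u k + 4 * u (k + 1) - 29)) (I : Finset ℕ)
    (hI : ∀ i ∈ I, k < i ∧ a i ≤ 3 * a k) :
    ∑ i ∈ I, ((q i ^ 2 : ℕ) : ℝ) * (Real.exp (Real.exp 1 * ((40 : ℝ) *
      (T.card * ((q k : ℝ) ^ 2 / ((q i ^ 2 : ℕ) : ℝ) + 1 / ((2 ^ s0 u k : ℕ) : ℝ))))) /
        Real.exp 1 ^ yN u b k i) < 1 / 2 := by
  have hmu : Monotone u := monotone_nat_of_le_succ h.uu'
  have hmb : Monotone b := monotone_nat_of_le_succ h.bb
  have hma : Monotone a := monotone_nat_of_le_succ fun n => by rw [h.step n]; omega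
  have hu1 : ∀ n, 60000 ≤ u n := fun n => by have := h.lu n; omega
  have hbk : b k ≤ u k := by have := h.lu k; omega
  have hak : a k < 2 ^ (u k) := by
    have h1 : Nat.log 2 (a k) < u k := by have := h.lu k; omega
    exact Nat.lt_pow_of_log_lt (by norm_num) h1
  have hia : ∀ n, n ≤ a n := by
    intro n
    induction n with
    | zero => exact Nat.zero_le _
    | succ n ih => rw [h.step n]; have := hu1 n; omega
  have huu := h.uu k
  have huk := hu1 k
  have huk1 : u k ≤ u (k + 1) := h.uu' k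
  have he : Real.exp 1 * 40 ≤ 2 ^ 7 := by
    have := Real.exp_one_lt_d9
    norm_num
    linarith
  have he0 : 0 < Real.exp 1 := Real.exp_pos _
  have hTR : (T.card : ℝ) ≤ 2 ^ (b k + 2 * u k + 4 * u (k + 1) - 29) := by exact_mod_cast hT
  -- the second part of the exponent
  have hp2 : Real.exp 1 * 40 * (T.card * (1 / ((2 ^ s0 u k : ℕ) : ℝ))) ≤ 1 := by
    have h1 : (0 : ℝ) < ((2 ^ s0 u k : ℕ) : ℝ) := by positivity
    rw [mul_one_div, ← mul_div_assoc, div_le_one h1]
    have h2 : Real.exp 1 * 40 * (T.card : ℝ) ≤ 2 ^ 7 * 2 ^ (b k + 2 * u k + 4 * u (k + 1) - 29) :=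
      mul_le_mul he hTR (Nat.cast_nonneg _) (by positivity)
    refine h2.trans ?_
    rw [← pow_add]
    push_cast
    refine pow_le_pow_right₀ (by norm_num) ?_
    unfold s0
    omega
  -- the ratio of the primes
  have hrat : ∀ i d, a k + d ≤ a i → (q k : ℝ) ^ 2 / ((q i ^ 2 : ℕ) : ℝ) ≤ 4 / 2 ^ (2 * d) := by
    intro i d hd
    have h1 : (q k : ℝ) ≤ 2 ^ (a k + 1) := by exact_mod_cast (hq k).2.2
    have h2 : (2 : ℝ) ^ (a k + d) ≤ q i := by
      have h3 : (2 : ℝ) ^ (a i) ≤ q i := by exact_mod_cast (hq i).2.1.le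
      exact (pow_le_pow_right₀ (by norm_num) hd).trans h3
    have hqi : (0 : ℝ) < ((q i ^ 2 : ℕ) : ℝ) := by
      have := (hq i).1.pos
      positivity
    rw [div_le_div_iff₀ hqi (by positivity)]
    push_cast
    have h4 : (q k : ℝ) ^ 2 ≤ (2 ^ (a k + 1)) ^ 2 := by gcongr
    have h5 : ((2 : ℝ) ^ (a k + d)) ^ 2 ≤ (q i : ℝ) ^ 2 := by gcongr
    calc (q k : ℝ) ^ 2 * 2 ^ (2 * d) ≤ (2 ^ (a k + 1)) ^ 2 * 2 ^ (2 * d) := by gcongr
      _ = 4 * (2 ^ (a k + d)) ^ 2 := by
        rw [← pow_mul, ← pow_mul, ← pow_add]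
        have : (4 : ℝ) = 2 ^ 2 := by norm_num
        rw [this, ← pow_add]
        congr 1
        ring
      _ ≤ 4 * (q i : ℝ) ^ 2 := by gcongr
  -- the exponent
  have hE : ∀ i ∈ I, Real.exp 1 * ((40 : ℝ) * (T.card * ((q k : ℝ) ^ 2 / ((q i ^ 2 : ℕ) : ℝ) +
      1 / ((2 ^ s0 u k : ℕ) : ℝ)))) ≤ (yN u b k i : ℝ) / 32 + 2 := by
    intro i hi
    obtain ⟨hki, -⟩ := hI i hi
    have hp1 : Real.exp 1 * 40 * (T.card * ((q k : ℝ) ^ 2 / ((q i ^ 2 : ℕ) : ℝ))) ≤
        (yN u b k i : ℝ) / 32 + 1 := by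
      by_cases h4 : i ≤ k + 3
      · have hd : a k + u k ≤ a i := by
          rw [← h.step k]
          exact hma hki
        have h1 := hrat i (u k) hd
        have hub : 4 * u (k + 1) + b k ≤ 4 * u i + b i := by
          have := hmu (show k + 1 ≤ i from hki)
          have := hmb hki.le
          omega
        have hY : (2 : ℝ) ^ (4 * u (k + 1) + b k - 15) ≤ (yN u b k i : ℝ) := by
          have h5 : 2 ^ (4 * u (k + 1) + b k - 15) ≤ yN u b k i := by
            unfold yN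
            rw [Nat.pow_div (by have := hu1 (k + 1); omega) (by norm_num),
              Nat.pow_div (by have := hu1 (k + 1); omega) (by norm_num)]
            refine le_trans ?_ (Nat.le_add_right _ _)
            exact Nat.pow_le_pow_right (by norm_num) (by omega)
          exact_mod_cast h5
        have h6 : Real.exp 1 * 40 * (T.card * ((q k : ℝ) ^ 2 / ((q i ^ 2 : ℕ) : ℝ))) ≤
            2 ^ 7 * (2 ^ (b k + 2 * u k + 4 * u (k + 1) - 29) * (4 / 2 ^ (2 * u k))) := by
          refine mul_le_mul he ?_ (by positivity) (by positivity)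
          exact mul_le_mul hTR h1 (by positivity) (by positivity)
        have h7 : (2 : ℝ) ^ 7 * (2 ^ (b k + 2 * u k + 4 * u (k + 1) - 29) * (4 / 2 ^ (2 * u k))) =
            2 ^ (4 * u (k + 1) + b k - 15) / 32 := by
          rw [mul_div_assoc', mul_div_assoc', div_eq_div_iff (by positivity) (by norm_num)]
          have e1 : (4 : ℝ) = 2 ^ 2 := by norm_num
          have e2 : (32 : ℝ) = 2 ^ 5 := by norm_num
          rw [e1, e2, ← pow_add, ← pow_add, ← pow_add, ← pow_add]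
          congr 1
          have := hu1 (k + 1)
          omega
        rw [h7] at h6
        linarith
      · have hd : a k + (u k + 3 * u (k + 1)) ≤ a i := by
          have h1 := h.step k
          have h2 := h.step (k + 1)
          have h3 := h.step (k + 2)
          have h5 := h.step (k + 3)
          have h6 := h.uu' (k + 1)
          have h7 := h.uu' (k + 2)
          have h8 := hma (show k + 4 ≤ i by omega)
          have e1 : k + 1 + 1 = k + 2 := rfl
          have e2 : k + 2 + 1 = k + 3 := rfl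
          have e3 : k + 3 + 1 = k + 4 := rfl
          rw [e1] at h2 h6
          rw [e2] at h3 h7
          rw [e3] at h5
          omega
        have h1 := hrat i _ hd
        have h6 : Real.exp 1 * 40 * (T.card * ((q k : ℝ) ^ 2 / ((q i ^ 2 : ℕ) : ℝ))) ≤
            2 ^ 7 * (2 ^ (b k + 2 * u k + 4 * u (k + 1) - 29) *
              (4 / 2 ^ (2 * (u k + 3 * u (k + 1))))) := by
          refine mul_le_mul he ?_ (by positivity) (by positivity)
          exact mul_le_mul hTR h1 (by positivity) (by positivity)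
        have h7 : (2 : ℝ) ^ 7 * (2 ^ (b k + 2 * u k + 4 * u (k + 1) - 29) *
              (4 / 2 ^ (2 * (u k + 3 * u (k + 1))))) ≤ 1 := by
          rw [mul_div_assoc', mul_div_assoc', div_le_one (by positivity)]
          have e1 : (4 : ℝ) = 2 ^ 2 := by norm_num
          rw [e1, ← pow_add, ← pow_add]
          exact pow_le_pow_right₀ (by norm_num) (by omega)
        have h8 : (0 : ℝ) ≤ (yN u b k i : ℝ) / 32 := by positivity
        linarith
    have e : Real.exp 1 * ((40 : ℝ) * (T.card * ((q k : ℝ) ^ 2 / ((q i ^ 2 : ℕ) : ℝ) +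
        1 / ((2 ^ s0 u k : ℕ) : ℝ)))) =
        Real.exp 1 * 40 * (T.card * ((q k : ℝ) ^ 2 / ((q i ^ 2 : ℕ) : ℝ))) +
          Real.exp 1 * 40 * (T.card * (1 / ((2 ^ s0 u k : ℕ) : ℝ))) := by ring
    rw [e]
    linarith
  -- one term
  have hterm : ∀ i ∈ I, ((q i ^ 2 : ℕ) : ℝ) * (Real.exp (Real.exp 1 * ((40 : ℝ) *
      (T.card * ((q k : ℝ) ^ 2 / ((q i ^ 2 : ℕ) : ℝ) + 1 / ((2 ^ s0 u k : ℕ) : ℝ))))) /
        Real.exp 1 ^ yN u b k i) ≤ Real.exp (-(9 * (a k : ℝ)) - 11) := by
    intro i hi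
    obtain ⟨hki, hai⟩ := hI i hi
    have hEi := hE i hi
    have hexp2 : (2 : ℝ) ≤ Real.exp 1 := by
      have := Real.exp_one_gt_d9
      linarith
    have hqi : ((q i ^ 2 : ℕ) : ℝ) ≤ Real.exp (6 * (a k : ℝ) + 2) := by
      have h1 : (q i : ℝ) ≤ 2 ^ (a i + 1) := by exact_mod_cast (hq i).2.2
      have h2 : (2 : ℝ) ^ (a i + 1) ≤ 2 ^ (3 * a k + 1) :=
        pow_le_pow_right₀ (by norm_num) (by omega)
      have h3 : (2 : ℝ) ^ (3 * a k + 1) ≤ Real.exp 1 ^ (3 * a k + 1) := by gcongr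
      have h4 : (q i : ℝ) ≤ Real.exp 1 ^ (3 * a k + 1) := h1.trans (h2.trans h3)
      push_cast
      calc (q i : ℝ) ^ 2 ≤ (Real.exp 1 ^ (3 * a k + 1)) ^ 2 := by gcongr
        _ = Real.exp (6 * (a k : ℝ) + 2) := by
          rw [← pow_mul, ← Real.exp_nat_mul]
          congr 1
          push_cast
          ring
    have hYl : 16 * (a k : ℝ) + 16 ≤ (yN u b k i : ℝ) := by
      have h1 : 16 * a k + 16 ≤ yN u b k i := by
        have h2 : 2 ^ (2 * u k - 12) ≤ 2 ^ (2 * u i - 12) :=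
          Nat.pow_le_pow_right (by norm_num) (by have := hmu hki.le; omega)
        have h3 : 2 ^ (u k + 5) ≤ 2 ^ (2 * u k - 12) :=
          Nat.pow_le_pow_right (by norm_num) (by omega)
        have h4 : 2 ^ (u k + 5) = 32 * 2 ^ (u k) := by rw [pow_add]; ring
        unfold yN
        refine le_trans ?_ (Nat.le_add_left _ _)
        omega
      exact_mod_cast h1
    rw [← Real.exp_nat_mul, mul_one, ← Real.exp_sub]
    calc ((q i ^ 2 : ℕ) : ℝ) * Real.exp (Real.exp 1 * ((40 : ℝ) *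
          (T.card * ((q k : ℝ) ^ 2 / ((q i ^ 2 : ℕ) : ℝ) + 1 / ((2 ^ s0 u k : ℕ) : ℝ)))) -
            (yN u b k i : ℝ))
        ≤ Real.exp (6 * (a k : ℝ) + 2) * Real.exp ((yN u b k i : ℝ) / 32 + 2 -
            (yN u b k i : ℝ)) := by
          refine mul_le_mul hqi (Real.exp_le_exp.2 (by linarith)) (Real.exp_pos _).le
            (Real.exp_pos _).le
      _ = Real.exp (6 * (a k : ℝ) + 2 + ((yN u b k i : ℝ) / 32 + 2 - (yN u b k i : ℝ))) := by
          rw [← Real.exp_add]
      _ ≤ Real.exp (-(9 * (a k : ℝ)) - 11) := by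
          refine Real.exp_le_exp.2 ?_
          have : (0 : ℝ) ≤ a k := Nat.cast_nonneg _
          linarith
  -- the number of terms
  have hcard : (I.card : ℝ) ≤ Real.exp (3 * (a k : ℝ)) := by
    have h1 : I ⊆ range (3 * a k + 1) := by
      intro i hi
      rw [mem_range]
      have := (hI i hi).2
      have := hia i
      omega
    have h2 := card_le_card h1
    rw [card_range] at h2
    have h3 : (I.card : ℝ) ≤ 3 * (a k : ℝ) + 1 := by exact_mod_cast h2
    exact h3.trans (Real.add_one_le_exp _)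
  calc ∑ i ∈ I, ((q i ^ 2 : ℕ) : ℝ) * (Real.exp (Real.exp 1 * ((40 : ℝ) *
      (T.card * ((q k : ℝ) ^ 2 / ((q i ^ 2 : ℕ) : ℝ) + 1 / ((2 ^ s0 u k : ℕ) : ℝ))))) /
        Real.exp 1 ^ yN u b k i)
      ≤ I.card • Real.exp (-(9 * (a k : ℝ)) - 11) := Finset.sum_le_card_nsmul _ _ _ hterm
    _ = I.card * Real.exp (-(9 * (a k : ℝ)) - 11) := by rw [nsmul_eq_mul]
    _ ≤ Real.exp (3 * (a k : ℝ)) * Real.exp (-(9 * (a k : ℝ)) - 11) := by gcongr
    _ = Real.exp (-(6 * (a k : ℝ)) - 11) := by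
        rw [← Real.exp_add]
        congr 1
        ring
    _ ≤ Real.exp (-11) := Real.exp_le_exp.2 (by
        have : (0 : ℝ) ≤ a k := Nat.cast_nonneg _
        linarith)
    _ < 1 / 2 := by
        have h1 : Real.exp (-11) ≤ Real.exp (-1) := Real.exp_le_exp.2 (by norm_num)
        have h2 : Real.exp (-1) < 1 / 2 := by
          have := Real.exp_neg_one_lt_d9
          linarith
        linarith

end Pool.Agent.Helper95.FN
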